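import Pool.Agent.Helper8.Sey.Basic

/-!
# Packet REC of project SEY: the tuned thresholds
-/

set_option autoImplicit false

namespace Pool.Agent.Helper20.Sey

open Pool.Agent.Helper41.Girth4 Pool.Agent.Helper8.Sey

variable {V : Type} (P : Sys V)

/-! ### Dependence on the thresholds -/

theorem proc_congr (R R' : ℕ → V → ZMod P.N → ℕ) (ω : P.Om) (j : ℕ)
    (h : ∀ i ≤ j, R i = R' i) : P.proc R ω j = P.proc R' ω j := by
  induction j with
  | zero =>
    unfold Sys.proc
    rw [h 0 le_rfl]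
  | succ j ih =>
    have h1 := ih fun i hi => h i (by omega)
    unfold Sys.proc
    rw [h1, h (j + 1) le_rfl]

theorem T_congr (R R' : ℕ → V → ZMod P.N → ℕ) (ω : P.Om) (j : ℕ) (v : V)
    (h : ∀ i ≤ j, R i = R' i) : P.T R ω j v ↔ P.T R' ω j v := by
  unfold Sys.T
  rw [proc_congr P R R' ω j h]

theorem U_congr (R R' : ℕ → V → ZMod P.N → ℕ) (ω : P.Om) (j : ℕ) (v : V)
    (h : ∀ i < j, R i = R' i) : P.U R ω j v ↔ P.U R' ω j v := by
  rw [P.U_iff, P.U_iff]
  constructor
  · intro h1 i hi h2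
    exact h1 i hi ((T_congr P R R' ω i v fun k hk => h k (by omega)).2 h2)
  · intro h1 i hi h2
    exact h1 i hi ((T_congr P R R' ω i v fun k hk => h k (by omega)).1 h2)

theorem Fo_congr (R R' : ℕ → V → ZMod P.N → ℕ) (ω : P.Om) (j : ℕ) (v : V)
    (h : ∀ i < j, R i = R' i) : P.Fo R ω j v ↔ P.Fo R' ω j v := by
  cases j with
  | zero => exact Iff.rfl
  | succ j =>
    unfold Sys.Fo
    constructor
    · rintro ⟨u, h1, h2, h3⟩
      exact ⟨u, h1, h2, (T_congr P R R' ω j u fun k hk => h k (by omega)).1 h3⟩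
    · rintro ⟨u, h1, h2, h3⟩
      exact ⟨u, h1, h2, (T_congr P R R' ω j u fun k hk => h k (by omega)).2 h3⟩

/-! ### Dependence on the coins -/

/-- The outcomes agree up to the coins of times `≥ j`. -/
def Sim (j : ℕ) (ω ω' : P.Om) : Prop :=
  ∀ w, (ω w).1 = (ω' w).1 ∧ ∀ i < j, P.coin (ω w) i = P.coin (ω' w) i

theorem col_sim {j : ℕ} {ω ω' : P.Om} (h : Sim P j ω ω') : P.col ω = P.col ω' := by
  have h1 : P.colF ω = P.colF ω' := by
    funext c v
    unfold Sys.colF
    rw [(h v).1]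
  have h2 : (fun v => (ω v).1 0) = (fun v => (ω' v).1 0) := by
    funext v
    rw [(h v).1]
  unfold Sys.col
  rw [h1, h2]

theorem cls_sim {j : ℕ} {ω ω' : P.Om} (h : Sim P j ω ω') (v : V) : P.cls ω v = P.cls ω' v := by
  unfold Sys.cls
  rw [col_sim P h]

theorem proc_sim (R : ℕ → V → ZMod P.N → ℕ) {j : ℕ} {ω ω' : P.Om} (h : Sim P j ω ω') (i : ℕ)
    (hi : i < j) : P.proc R ω i = P.proc R ω' i := by
  induction i with
  | zero =>
    unfold Sys.proc
    refine Prod.ext rfl (funext fun v => ?_)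
    show (P.coin (ω v) 0 < R 0 v (P.cls ω v)) = (P.coin (ω' v) 0 < R 0 v (P.cls ω' v))
    rw [(h v).2 0 hi, cls_sim P h]
  | succ i ih =>
    have h1 := ih (by omega)
    have h2 : P.cls ω = P.cls ω' := funext fun v => cls_sim P h v
    unfold Sys.proc
    rw [h1]
    refine Prod.ext rfl (funext fun v => ?_)
    simp only
    rw [(h v).2 (i + 1) hi, h2]

theorem T_sim (R : ℕ → V → ZMod P.N → ℕ) {j : ℕ} {ω ω' : P.Om} (h : Sim P j ω ω') (i : ℕ)
    (hi : i < j) (v : V) : P.T R ω i v ↔ P.T R ω' i v := by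
  unfold Sys.T
  rw [proc_sim P R h i hi]

theorem U_sim (R : ℕ → V → ZMod P.N → ℕ) {j : ℕ} {ω ω' : P.Om} (h : Sim P j ω ω') (v : V) :
    P.U R ω j v ↔ P.U R ω' j v := by
  rw [P.U_iff, P.U_iff]
  constructor
  · intro h1 i hi h2
    exact h1 i hi ((T_sim P R h i hi v).2 h2)
  · intro h1 i hi h2
    exact h1 i hi ((T_sim P R h i hi v).1 h2)

theorem Fo_sim (R : ℕ → V → ZMod P.N → ℕ) {j : ℕ} {ω ω' : P.Om} (h : Sim P j ω ω') (v : V) :
    P.Fo R ω j v ↔ P.Fo R ω' j v := by
  cases j with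
  | zero => exact Iff.rfl
  | succ j =>
    unfold Sys.Fo
    constructor
    · rintro ⟨u, h1, h2, h3⟩
      exact ⟨u, h1, by rw [← cls_sim P h, ← cls_sim P h]; exact h2,
        (T_sim P R h j (by omega) u).1 h3⟩
    · rintro ⟨u, h1, h2, h3⟩
      exact ⟨u, h1, by rw [cls_sim P h, cls_sim P h]; exact h2,
        (T_sim P R h j (by omega) u).2 h3⟩

open Classical in
/-- exchange of the values `a`, `b` of the coin of time `j` of `v` -/
noncomputable def ex (v : V) (j : Fin P.J) (a b : Fin P.L) (ω : P.Om) : P.Om :=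
  Function.update ω v ((ω v).1, Function.update (ω v).2 j (Equiv.swap a b ((ω v).2 j)))

theorem ex_ex (v : V) (j : Fin P.J) (a b : Fin P.L) (ω : P.Om) :
    ex P v j a b (ex P v j a b ω) = ω := by
  classical
  unfold ex
  funext w
  by_cases hw : w = v
  · subst hw
    simp
  · simp [Function.update_of_ne hw]

/-- `ex` as an equivalence -/
noncomputable def exE (v : V) (j : Fin P.J) (a b : Fin P.L) : P.Om ≃ P.Om where
  toFun := ex P v j a b
  invFun := ex P v j a b
  left_inv := ex_ex P v j a b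
  right_inv := ex_ex P v j a b

theorem ex_sim (v : V) (j : Fin P.J) (a b : Fin P.L) (ω : P.Om) :
    Sim P j ω (ex P v j a b ω) := by
  classical
  intro w
  unfold ex
  by_cases hw : w = v
  · subst hw
    refine ⟨by simp, fun i hi => ?_⟩
    have hiJ : i < P.J := hi.trans j.2
    unfold Sys.coin
    rw [dif_pos hiJ, dif_pos hiJ, Function.update_self]
    have : (⟨i, hiJ⟩ : Fin P.J) ≠ j := by
      intro h
      have := congrArg Fin.val h
      simp only at this
      omega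
    simp only
    rw [Function.update_of_ne this]
  · rw [Function.update_of_ne hw]
    exact ⟨rfl, fun _ _ => rfl⟩

theorem ex_coin (v : V) (j : Fin P.J) (a b : Fin P.L) (ω : P.Om) :
    (ex P v j a b ω v).2 j = Equiv.swap a b ((ω v).2 j) := by
  classical
  unfold ex
  rw [Function.update_self]
  simp only
  rw [Function.update_self]

theorem Pr_coin_eq (X : P.Om → Prop) (v : V) (j : Fin P.J)
    (hX : ∀ ω ω', Sim P j ω ω' → X ω → X ω') (a b : Fin P.L) :
    Pr (fun ω : P.Om => X ω ∧ (ω v).2 j = a) = Pr (fun ω : P.Om => X ω ∧ (ω v).2 j = b) := by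
  rw [← Pr_equiv (exE P v j a b) (fun ω : P.Om => X ω ∧ (ω v).2 j = a)]
  apply Pr_congr
  intro ω
  have h1 : (exE P v j a b) ω = ex P v j a b ω := rfl
  rw [h1, ex_coin]
  have h2 : X (ex P v j a b ω) ↔ X ω := by
    constructor
    · intro h
      have := hX _ _ (ex_sim P v j a b (ex P v j a b ω)) h
      rwa [ex_ex] at this
    · exact hX _ _ (ex_sim P v j a b ω)
  have h3 : Equiv.swap a b ((ω v).2 j) = a ↔ (ω v).2 j = b := by
    rw [Equiv.apply_eq_iff_eq_symm_apply, Equiv.symm_swap, Equiv.swap_apply_left]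
  rw [h2, h3]

variable [Fintype V]

theorem Pr_coin (X : P.Om → Prop) (v : V) (j : Fin P.J)
    (hX : ∀ ω ω', Sim P j ω ω' → X ω → X ω') (a : Fin P.L) :
    Pr (fun ω : P.Om => X ω ∧ (ω v).2 j = a) = Pr X / P.L := by
  have h1 := Pr_fiber (s := (Finset.univ : Finset (Fin P.L))) X (fun ω => (ω v).2 j)
    (fun _ _ => Finset.mem_univ _)
  have h2 : ∑ b : Fin P.L, Pr (fun ω : P.Om => X ω ∧ (ω v).2 j = b)
      = ∑ _b : Fin P.L, Pr (fun ω : P.Om => X ω ∧ (ω v).2 j = a) :=
    Finset.sum_congr rfl fun b _ => Pr_coin_eq P X v j hX b a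
  rw [h2, Finset.sum_const, Finset.card_univ, Fintype.card_fin, nsmul_eq_mul] at h1
  have hL : (0 : ℝ) < P.L := by exact_mod_cast P.hL
  rw [h1]
  field_simp

theorem Pr_coin_lt (X : P.Om → Prop) (v : V) (j : ℕ) (hj : j < P.J)
    (hX : ∀ ω ω', Sim P j ω ω' → X ω → X ω') (θ : ℕ) (hθ : θ ≤ P.L) :
    Pr (fun ω : P.Om => X ω ∧ P.coin (ω v) j < θ) = Pr X * θ / P.L := by
  classical
  have h1 := Pr_fiber (s := (Finset.univ.filter fun a : Fin P.L => (a : ℕ) < θ))
    (fun ω : P.Om => X ω ∧ P.coin (ω v) j < θ) (fun ω => (ω v).2 ⟨j, hj⟩)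
    (by
      rintro ω ⟨_, h⟩
      unfold Sys.coin at h
      rw [dif_pos hj] at h
      simpa using h)
  rw [h1]
  have h2 : ∀ a ∈ (Finset.univ.filter fun a : Fin P.L => (a : ℕ) < θ),
      Pr (fun ω : P.Om => (X ω ∧ P.coin (ω v) j < θ) ∧ (ω v).2 ⟨j, hj⟩ = a) = Pr X / P.L := by
    intro a ha
    rw [← Pr_coin P X v ⟨j, hj⟩ hX a]
    apply Pr_congr
    intro ω
    constructor
    · rintro ⟨⟨h3, _⟩, h4⟩
      exact ⟨h3, h4⟩
    · rintro ⟨h3, h4⟩
      refine ⟨⟨h3, ?_⟩, h4⟩
      unfold Sys.coin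
      rw [dif_pos hj, h4]
      simpa using ha
  rw [Finset.sum_congr rfl h2, Finset.sum_const, Fin.card_filter_val_lt, min_eq_right hθ,
    nsmul_eq_mul]
  ring

/-! ### The bounds -/

theorem Pr_Fo_le (hE : GoalEXCH) (hW : GoalWIN) (R : ℕ → V → ZMod P.N → ℕ) (j : ℕ) (hj : j < P.J)
    (t : ℝ) (ht : 0 ≤ t)
    (ih : ∀ i < j, ∀ (v : V) (a : Fin P.q),
      Pr (fun ω : P.Om => P.T R ω i v ∧ P.cls ω v = P.cl (P.part v) a) ≤ t)
    (v : V) (a : Fin P.q) :
    Pr (fun ω : P.Om => P.U R ω j v ∧ P.Fo R ω j v ∧ P.cls ω v = P.cl (P.part v) a) ≤ t := by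
  classical
  cases j with
  | zero =>
    have : Pr (fun ω : P.Om => P.U R ω 0 v ∧ P.Fo R ω 0 v ∧ P.cls ω v = P.cl (P.part v) a)
        = Pr (fun _ : P.Om => False) := by
      apply Pr_congr
      intro ω
      constructor
      · rintro ⟨_, h, _⟩
        exact h
      · exact fun h => h.elim
    rw [this, Pr_false]
    exact ht
  | succ i =>
    obtain ⟨m, hm, hn, hc⟩ := P.cand (P.part v) (P.part_lt v) a
    have hcard := P.hnear.2 v m hm hn
    rw [Nat.card_eq_fintype_card, Fintype.card_subtype] at hcard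
    have hD : (0 : ℝ) < P.D := by exact_mod_cast P.hD
    have h1 : ∀ u ∈ (Finset.univ.filter fun u : V => P.H.Adj v u ∧ P.part u = m),
        Pr (fun ω : P.Om => (P.cls ω u = P.cl (P.part v) a - 1 ∧ P.T R ω i u) ∧
          P.cls ω v = P.cl (P.part v) a) ≤ t / P.D := by
      intro u _
      have h2 := (hE V P).1 (fun ω => P.cls ω u = P.cl (P.part v) a - 1 ∧ P.T R ω i u)
        (P.Win i (P.cl (P.part v) a - 1))
        ((P.card_Win_le _ _).trans (by omega))
        (by
          rintro ω ω' hA ⟨h3, h4⟩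
          have h5 := (hA u (Or.inl (by rw [h3]; exact P.self_mem_Win _ _))).1
          refine ⟨by rw [← h5]; exact h3, ?_⟩
          exact ((hW V P R i _ ω ω' hA u h3).2).1 h4)
        v (P.cl (P.part v) a) (P.not_mem_Win (by omega) _)
      have h6 : Pr (fun ω : P.Om => P.cls ω u = P.cl (P.part v) a - 1 ∧ P.T R ω i u) ≤ t := by
        obtain ⟨l', hl', a', hg⟩ := P.cl_surj (P.cl (P.part v) a - 1)
        by_cases hlu : P.part u = l'
        · subst hlu
          refine le_trans (le_of_eq (Pr_congr fun ω => ?_)) (ih i (by omega) u a')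
          rw [hg]
          exact and_comm
        · have : Pr (fun ω : P.Om => P.cls ω u = P.cl (P.part v) a - 1 ∧ P.T R ω i u)
              = Pr (fun _ : P.Om => False) := by
            apply Pr_congr
            intro ω
            constructor
            · rintro ⟨h, _⟩
              rw [hg] at h
              exact hlu ((P.cls_eq_iff ω u hl' a').1 h).1
            · exact fun h => h.elim
          rw [this, Pr_false]
          exact ht
      rw [le_div_iff₀ hD, mul_comm]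
      exact h2.trans h6
    calc Pr (fun ω : P.Om => P.U R ω (i + 1) v ∧ P.Fo R ω (i + 1) v ∧
            P.cls ω v = P.cl (P.part v) a)
        ≤ Pr (fun ω : P.Om => ∃ u ∈ (Finset.univ.filter fun u : V => P.H.Adj v u ∧ P.part u = m),
            (P.cls ω u = P.cl (P.part v) a - 1 ∧ P.T R ω i u) ∧
              P.cls ω v = P.cl (P.part v) a) := by
          apply Pr_mono
          rintro ω ⟨_, ⟨u, h3, h4, h5⟩, h6⟩
          have h7 : P.cls ω u + 1 = P.cl (P.part v) a := by rw [← h4, h6]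
          refine ⟨u, ?_, ⟨by rw [← h7]; ring, h5⟩, h6⟩
          rw [Finset.mem_filter]
          refine ⟨Finset.mem_univ _, h3.symm, ?_⟩
          exact hc (P.part u) (P.col ω u) (P.part_lt u) h7
      _ ≤ ∑ u ∈ (Finset.univ.filter fun u : V => P.H.Adj v u ∧ P.part u = m),
            Pr (fun ω : P.Om => (P.cls ω u = P.cl (P.part v) a - 1 ∧ P.T R ω i u) ∧
              P.cls ω v = P.cl (P.part v) a) := Pr_exists_le _ _
      _ ≤ ∑ _u ∈ (Finset.univ.filter fun u : V => P.H.Adj v u ∧ P.part u = m), t / P.D :=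
          Finset.sum_le_sum h1
      _ = ((Finset.univ.filter fun u : V => P.H.Adj v u ∧ P.part u = m).card : ℝ) * (t / P.D) := by
          rw [Finset.sum_const, nsmul_eq_mul]
      _ ≤ P.D * (t / P.D) := by
          apply mul_le_mul_of_nonneg_right
          · exact_mod_cast hcard
          · positivity
      _ = t := by field_simp

theorem Pr_U_ge (hE : GoalEXCH) (R : ℕ → V → ZMod P.N → ℕ) (t : ℝ) (j : ℕ)
    (ih : ∀ i < j, ∀ (v : V) (a : Fin P.q),
      Pr (fun ω : P.Om => P.T R ω i v ∧ P.cls ω v = P.cl (P.part v) a) ≤ t)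
    (v : V) (a : Fin P.q) :
    1 / (P.q : ℝ) - j * t ≤ Pr (fun ω : P.Om => P.U R ω j v ∧ P.cls ω v = P.cl (P.part v) a) := by
  induction j with
  | zero =>
    have h1 : Pr (fun ω : P.Om => P.U R ω 0 v ∧ P.cls ω v = P.cl (P.part v) a) = 1 / P.q := by
      rw [← (hE V P).2 v a]
      apply Pr_congr
      intro ω
      exact ⟨fun h => h.2, fun h => ⟨trivial, h⟩⟩
    rw [h1]
    simp
  | succ j ihj =>
    have h1 := ihj fun i hi => ih i (by omega)
    have h2 := ih j (by omega) v a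
    have h3 : Pr (fun ω : P.Om => P.U R ω (j + 1) v ∧ P.cls ω v = P.cl (P.part v) a)
        = Pr (fun ω : P.Om => P.U R ω j v ∧ P.cls ω v = P.cl (P.part v) a) -
          Pr (fun ω : P.Om => (P.U R ω j v ∧ P.cls ω v = P.cl (P.part v) a) ∧ P.T R ω j v) := by
      rw [← Pr_and_not]
      apply Pr_congr
      intro ω
      rw [P.U_succ]
      tauto
    have h4 : Pr (fun ω : P.Om => (P.U R ω j v ∧ P.cls ω v = P.cl (P.part v) a) ∧ P.T R ω j v)
        ≤ Pr (fun ω : P.Om => P.T R ω j v ∧ P.cls ω v = P.cl (P.part v) a) := by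
      apply Pr_mono
      rintro ω ⟨⟨_, h⟩, h'⟩
      exact ⟨h', h⟩
    rw [h3]
    push_cast
    linarith

/-- The step of the recursion. -/
theorem step (hE : GoalEXCH) (hW : GoalWIN) (R : ℕ → V → ZMod P.N → ℕ) (j : ℕ) (hj : j < P.J)
    (ih : ∀ i < j, ∀ (v : V) (a : Fin P.q),
      Pr (fun ω : P.Om => P.T R ω i v ∧ P.cls ω v = P.cl (P.part v) a) ≤
        1 / ((P.q : ℝ) * P.J)) :
    ∃ R' : ℕ → V → ZMod P.N → ℕ, (∀ i < j, R' i = R i) ∧ ∀ (v : V) (a : Fin P.q),
      1 / ((P.q : ℝ) * P.J) - 1 / ((P.q : ℝ) * P.L) ≤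
          Pr (fun ω : P.Om => P.T R' ω j v ∧ P.cls ω v = P.cl (P.part v) a) ∧
        Pr (fun ω : P.Om => P.T R' ω j v ∧ P.cls ω v = P.cl (P.part v) a) ≤
          1 / ((P.q : ℝ) * P.J) := by
  classical
  have hq : (0 : ℝ) < P.q := by exact_mod_cast P.q_pos
  have hJ : (0 : ℝ) < P.J := by have := P.hJ; exact_mod_cast (by omega : 0 < P.J)
  have hL : (0 : ℝ) < P.L := by exact_mod_cast P.hL
  obtain ⟨t, ht⟩ : ∃ t : ℝ, t = 1 / ((P.q : ℝ) * P.J) := ⟨_, rfl⟩
  have ht0 : 0 ≤ t := by rw [ht]; positivity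
  let A : V → ZMod P.N → ℝ := fun v g =>
    Pr (fun ω : P.Om => P.U R ω j v ∧ P.Fo R ω j v ∧ P.cls ω v = g)
  let B : V → ZMod P.N → ℝ := fun v g =>
    Pr (fun ω : P.Om => P.U R ω j v ∧ ¬ P.Fo R ω j v ∧ P.cls ω v = g)
  let R' : ℕ → V → ZMod P.N → ℕ := fun i v g => if i = j then ⌊P.L * (t - A v g) / B v g⌋₊ else R i v g
  have hR' : ∀ i < j, R' i = R i := by
    intro i hi
    funext v g
    simp only [R', if_neg (by omega : ¬ i = j)]
  refine ⟨R', hR', fun v a => ?_⟩
  rw [← ht] at ih ⊢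
  obtain ⟨g, hg⟩ : ∃ g, g = P.cl (P.part v) a := ⟨_, rfl⟩
  have hA : A v g ≤ t := by
    simp only [A, hg]
    exact Pr_Fo_le P hE hW R j hj t ht0 ih v a
  have hB0 : 0 ≤ B v g := Pr_nonneg _
  have hBq : B v g ≤ 1 / P.q := by
    rw [← (hE V P).2 v a]
    apply Pr_mono
    rintro ω ⟨_, _, h⟩
    rw [h, hg]
  have hAB : t ≤ A v g + B v g := by
    have h1 := Pr_U_ge P hE R t j ih v a
    have h2 : Pr (fun ω : P.Om => P.U R ω j v ∧ P.cls ω v = P.cl (P.part v) a)
        = A v g + B v g := by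
      rw [Pr_split _ (fun ω : P.Om => P.Fo R ω j v)]
      simp only [A, B, hg]
      congr 1
      · apply Pr_congr; intro ω; tauto
      · apply Pr_congr; intro ω; tauto
    rw [h2] at h1
    have h3 : ((j : ℝ) + 1) * t ≤ 1 / P.q := by
      have h4 : ((j : ℝ) + 1) ≤ P.J := by exact_mod_cast hj
      calc ((j : ℝ) + 1) * t ≤ P.J * t := mul_le_mul_of_nonneg_right h4 ht0
        _ = 1 / P.q := by rw [ht]; field_simp
    linarith
  obtain ⟨θ, hθ⟩ : ∃ θ : ℕ, θ = ⌊P.L * (t - A v g) / B v g⌋₊ := ⟨_, rfl⟩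
  have hθL : θ ≤ P.L := by
    rw [hθ]
    apply Nat.floor_le_of_le
    rcases hB0.eq_or_lt with h | h
    · rw [← h, div_zero]
      exact hL.le
    · rw [div_le_iff₀ h]
      exact mul_le_mul_of_nonneg_left (by linarith) hL.le
  have hmain : Pr (fun ω : P.Om => P.T R' ω j v ∧ P.cls ω v = g)
      = A v g + B v g * θ / P.L := by
    have h1 : Pr (fun ω : P.Om => P.T R' ω j v ∧ P.cls ω v = g)
        = Pr (fun ω : P.Om => (P.U R ω j v ∧ P.Fo R ω j v ∧ P.cls ω v = g) ∨
          ((P.U R ω j v ∧ ¬ P.Fo R ω j v ∧ P.cls ω v = g) ∧ P.coin (ω v) j < θ)) := by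
      apply Pr_congr
      intro ω
      rw [P.T_iff, U_congr P R' R ω j v hR', Fo_congr P R' R ω j v hR']
      have h2 : R' j v g = θ := by
        simp only [R', if_true]
        exact hθ.symm
      constructor
      · rintro ⟨⟨h3, h4⟩, h5⟩
        by_cases h6 : P.Fo R ω j v
        · exact Or.inl ⟨h3, h6, h5⟩
        · refine Or.inr ⟨⟨h3, h6, h5⟩, ?_⟩
          rcases h4 with h4 | h4
          · exact absurd h4 h6
          · rw [h5, h2] at h4
            exact h4
      · rintro (⟨h3, h6, h5⟩ | ⟨⟨h3, h6, h5⟩, h7⟩)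
        · exact ⟨⟨h3, Or.inl h6⟩, h5⟩
        · refine ⟨⟨h3, Or.inr ?_⟩, h5⟩
          rw [h5, h2]
          exact h7
    rw [h1, Pr_or (by tauto), Pr_coin_lt P _ v j hj ?_ θ hθL]
    rintro ω ω' hs ⟨h3, h4, h5⟩
    refine ⟨(U_sim P R hs v).1 h3, fun h => h4 ((Fo_sim P R hs v).2 h), ?_⟩
    rw [← cls_sim P hs]
    exact h5
  rw [← hg, hmain]
  rcases hB0.eq_or_lt with h | h
  · have h1 : A v g = t := le_antisymm hA (by linarith)
    rw [← h, h1]
    simp only [zero_mul, zero_div, add_zero, le_refl, and_true]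
    have : 0 ≤ 1 / ((P.q : ℝ) * P.L) := by positivity
    linarith
  · have h1 : 0 ≤ P.L * (t - A v g) / B v g := by
      have : 0 ≤ t - A v g := by linarith
      positivity
    have h2 : (θ : ℝ) ≤ P.L * (t - A v g) / B v g := by rw [hθ]; exact Nat.floor_le h1
    have h3 : P.L * (t - A v g) / B v g < θ + 1 := by rw [hθ]; exact Nat.lt_floor_add_one _
    rw [le_div_iff₀ h] at h2
    rw [div_lt_iff₀ h] at h3
    constructor
    · have h4 : t - A v g - B v g / P.L ≤ B v g * θ / P.L := by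
        rw [sub_le_iff_le_add, ← add_div, le_div_iff₀ hL]
        linarith
      have h5 : B v g / P.L ≤ 1 / ((P.q : ℝ) * P.L) := by
        rw [div_le_iff₀ hL]
        calc B v g ≤ 1 / P.q := hBq
          _ = 1 / ((P.q : ℝ) * P.L) * P.L := by field_simp
      linarith
    · have h4 : B v g * θ / P.L ≤ t - A v g := by
        rw [div_le_iff₀ hL]
        linarith
      linarith

/-- **REC** -/
theorem goalREC (hE : GoalEXCH) (hW : GoalWIN) : GoalREC := by
  intro V _ P
  have key : ∀ j0 ≤ P.J, ∃ R : ℕ → V → ZMod P.N → ℕ,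
      ∀ j < j0, ∀ (v : V) (a : Fin P.q),
        1 / ((P.q : ℝ) * P.J) - 1 / ((P.q : ℝ) * P.L) ≤
            Pr (fun ω : P.Om => P.T R ω j v ∧ P.cls ω v = P.cl (P.part v) a) ∧
          Pr (fun ω : P.Om => P.T R ω j v ∧ P.cls ω v = P.cl (P.part v) a) ≤
            1 / ((P.q : ℝ) * P.J) := by
    intro j0
    induction j0 with
    | zero => exact fun _ => ⟨fun _ _ _ => 0, fun j hj => absurd hj (Nat.not_lt_zero j)⟩
    | succ j0 ih =>
      intro hj0
      obtain ⟨R, hR⟩ := ih (by omega)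
      obtain ⟨R', hR', hR2⟩ := step P hE hW R j0 (by omega) (fun i hi v a => (hR i hi v a).2)
      refine ⟨R', fun j hj v a => ?_⟩
      rcases Nat.lt_succ_iff_lt_or_eq.1 hj with h | rfl
      · have h1 : Pr (fun ω : P.Om => P.T R' ω j v ∧ P.cls ω v = P.cl (P.part v) a)
            = Pr (fun ω : P.Om => P.T R ω j v ∧ P.cls ω v = P.cl (P.part v) a) := by
          apply Pr_congr
          intro ω
          rw [T_congr P R' R ω j v fun i hi => hR' i (by omega)]
        rw [h1]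
        exact hR j h v a
      · exact hR2 v a
  exact key P.J le_rfl

end Pool.Agent.Helper20.Sey
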